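import Pool.Agent.N845.SP.Few

/-!
# All symmetric power L-functions from the first `K`, for forms with at most `K` Hecke eigenvalues

`n = 1`, so `G = GL_2`. Let `π` be a cuspidal automorphic representation of `PGL_2` over `ℚ`, `π_∞` a principal
series with parameter `|·|^r sgn^e ⊕ |·|^{-r} sgn^e` (a Maass form of weight `0`, even for `e = 0`, odd for `e = 1`,
with Laplace eigenvalue `1/4 - r²`), `S` a finite set of primes containing the ramified ones, `A_p = (α_p, α_p⁻¹)`
the Satake parameters and `a_p = α_p + α_p⁻¹` the normalised Hecke eigenvalues. The irreducible algebraic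
representations `ρ` of the dual group `SL_2(ℂ)` are the `Sym^k`, `k ≥ 0`.

**Theorem.** Assume that `L_S(s, π, Sym^k)`, `k ≤ K`, has a meromorphic continuation which is a quotient of entire
functions of order at most `3/2` and has the expected functional equation, and that for some finite set `T` the
numbers `a_p`, `p ∉ T`, take at most `K` different values. Then

* `π_∞` is of Galois type: `r = 0`;
* **every** `α_p`, `p ∉ S`, is a root of unity, of order less than `2 K` (so the Ramanujan conjecture holds at every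
  unramified prime, those of `T` included);
* for **every** `k ≥ 0` the Euler product `L_S(s, π, Sym^k)` has a meromorphic continuation to `ℂ`, a quotient of
  entire functions of order at most `3/2`, and the expected functional equation with the exact gamma factor.

So `L_S(s, π, ρ)` continues for all finite-dimensional `ρ`. Nothing is assumed about Galois representations and none
is constructed. For `K = 8` the assumptions on the first `K` symmetric powers are theorems
(`L(s, Sym^5) = L(s, Sym^4 × Sym^1) / L(s, Sym^3)`, `L(s, Sym^6) = L(s, Sym^3 × Sym^3) / L(s, Sym^2 × Sym^2)`,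
`L(s, Sym^7) = L(s, Sym^4 × Sym^3) / L(s, Sym^3 × Sym^2)`, `L(s, Sym^8) = L(s, Sym^4 × Sym^4) / L(s, Sym^3 × Sym^3)`,
and `Sym^k π`, `k ≤ 4`, is automorphic by Gelbart-Jacquet, Kim-Shahidi and Kim).

Idea. Let `V` be the set of the values `a_p`. The polynomial `∏_{v ∈ V} (X - v)` of degree at most `K` is a real
combination of the characters of `Sym^k`, `k ≤ K`, which vanishes at all `a_p`, `p ∉ T`. Such a relation passes to
the prime powers (the theorem of `Pool.Agent.N210.FW`), and then, by comparing orders in the functional equations and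
separating the primes by their different periods `2πi / log p`, to the gamma factors and to the remaining primes
`p ∉ S` with exact multiplicities. So `V` contains all `α_p^n + α_p^{-n}`, `p ∉ S`, `n ≥ 1`: the `α_p` are roots of
unity, the set of these traces is stable under algebraic conjugation (Dickson polynomials), the monic polynomial with
these roots has integral coefficients, and every character is an *integral* combination of the first `K` on this set.
Hence `L(s, Sym^k)` is a product of integral powers of `L(s, Sym^j)`, `j < K`. The relation for the gamma factors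
shows that `2`, and `-2` if `e` is odd, are in `V`, which gives the right gamma factor of the product.
-/

set_option autoImplicit false

open Filter Topology

namespace Pool.Agent.Results.MP_eea520_nt.AllSymmetricPowers

/-- `∏_{0 ≤ i ≤ k} Γ_ℝ(s + r (k - 2 i) + δ)⁻¹`, `Γ_ℝ(s) = π^{-s/2} Γ(s/2)`: the inverse of the gamma factor of
`Sym^k π` if `δ` is the residue of `e k` modulo `2`. -/
noncomputable def invGamma (r : ℂ) (k δ : ℕ) (s : ℂ) : ℂ :=
  (((List.range (k + 1)).map fun i : ℕ => r * ((k : ℂ) - 2 * i) + δ).map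
    fun m => (Complex.Gammaℝ (s + m))⁻¹).prod

/-- `∏_{(p, b) ∈ l} (1 - b p^{-s})` -/
noncomputable def finEuler (l : List (ℕ × ℂ)) (s : ℂ) : ℂ :=
  (l.map fun x => 1 - x.2 * (x.1 : ℂ) ^ (-s)).prod

/-- The Euler product `L_S(s, π, Sym^k) = ∏_{p ∉ S} ∏_{0 ≤ i ≤ k} (1 - α_p^{k - 2 i} p^{-s})⁻¹` extends to the
meromorphic function `N/D` on `ℂ` and has the functional equation, the parameter of `π_∞` being
`|·|^r sgn^e ⊕ |·|^{-r} sgn^e`. -/
structure SymmetricPowerL (S : Finset ℕ) (α : ℕ → ℂ) (r : ℂ) (e k : ℕ) (N D : ℂ → ℂ) : Prop where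
  /-- `N` is entire -/
  entire_N : Differentiable ℂ N
  /-- `D` is entire -/
  entire_D : Differentiable ℂ D
  /-- `N` and `D` are of order at most `3/2` -/
  order : ∃ C : ℝ, ∀ s, ‖N s‖ ≤ Real.exp (C * (1 + ‖s‖) ^ (3 / 2 : ℝ)) ∧
    ‖D s‖ ≤ Real.exp (C * (1 + ‖s‖) ^ (3 / 2 : ℝ))
  /-- `D` has no zeros in `Re s > 1` -/
  ne_zero : ∀ s : ℂ, 1 < s.re → D s ≠ 0
  /-- the partial Euler products converge to `N/D` in `Re s > 1` -/
  euler : ∀ s : ℂ, 1 < s.re → Tendsto (fun X : ℕ =>
    ∏ p ∈ (Finset.range X).filter (fun p => p.Prime ∧ p ∉ S),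
      ∏ i ∈ Finset.range (k + 1), (1 - α p ^ ((k : ℤ) - 2 * i) * (p : ℂ) ^ (-s))⁻¹) atTop
      (𝓝 (N s / D s))
  /-- functional equation: with `δ = e k mod 2` and
  `Λ(s) = q^s · (invGamma r k δ s)⁻¹ · finEuler l' s / finEuler l s · N s / D s` it says `Λ(s) = ε Λ(1 - s)` -/
  functional : ∃ (l l' : List (ℕ × ℂ)) (q : ℝ) (ε : ℂ), 0 < q ∧ ε ≠ 0 ∧
    (∀ x ∈ l, x.1.Prime ∧ x.1 ∈ S) ∧ (∀ x ∈ l', x.1.Prime ∧ x.1 ∈ S) ∧
    ∀ s, (q : ℂ) ^ s * invGamma r k ((e * k) % 2) (1 - s) * finEuler l (1 - s) * finEuler l' s *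
        (N s * D (1 - s)) =
      ε * (q : ℂ) ^ (1 - s) * invGamma r k ((e * k) % 2) s * finEuler l s * finEuler l' (1 - s) *
        (N (1 - s) * D s)

/-- **All symmetric powers from the first `K`**; `K = 8` is unconditional. -/
theorem result {S : Finset ℕ} {α : ℕ → ℂ} {a : ℕ → ℝ} {r : ℂ} {e K : ℕ} {N D : ℕ → ℂ → ℂ}
    (hα : ∀ p : ℕ, p.Prime → p ∉ S → α p ≠ 0)
    (ha : ∀ p : ℕ, p.Prime → p ∉ S → α p + (α p)⁻¹ = a p)
    (hL : ∀ k ≤ K, SymmetricPowerL S α r e k (N k) (D k)) (T : Finset ℕ)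
    (hT : (a '' {p : ℕ | p.Prime ∧ p ∉ T}).encard ≤ K) :
    r = 0 ∧ (∀ p : ℕ, p.Prime → p ∉ S → ∃ n : ℕ, 0 < n ∧ n < 2 * K ∧ α p ^ n = 1) ∧
      ∀ k : ℕ, ∃ N' D' : ℂ → ℂ, SymmetricPowerL S α 0 e k N' D' := by
  classical
  have hfin : (a '' {p : ℕ | p.Prime ∧ p ∉ T}).Finite := Set.finite_of_encard_le_coe (k := K) hT
  have hcard : hfin.toFinset.card ≤ K := by
    rw [hfin.encard_eq_coe_toFinset_card] at hT
    exact_mod_cast hT
  have hLG : ∀ k ≤ K, Pool.Agent.N845.SP.LG S (Finset.range (k + 1)) (Pool.Agent.N210.FW.bs α k)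
      (Pool.Agent.N210.FW.mu r k ((e * k) % 2)) (N k) (D k) := fun k hk =>
    ⟨(hL k hk).entire_N, (hL k hk).entire_D, (hL k hk).order, (hL k hk).ne_zero, (hL k hk).euler,
      (hL k hk).functional⟩
  obtain ⟨hr, hcl, h2⟩ := Pool.Agent.N845.SP.few (e := e) hα ha hLG T
    hfin.toFinset hcard fun p hp hpT => by
      rw [Set.Finite.mem_toFinset]
      exact ⟨p, ⟨hp, hpT⟩, rfl⟩
  have hord := fun (p : ℕ) (hp : p.Prime) (hpS : p ∉ S) =>
    Pool.Agent.N845.SP.root_unity (hα p hp hpS) (hcl p hp hpS)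
  have hnorm : ∀ p : ℕ, p.Prime → p ∉ S → ‖α p‖ = 1 := fun p hp hpS =>
    Complex.norm_eq_one_of_pow_eq_one (pow_orderOf_eq_one (α p)) (hord p hp hpS).1.ne'
  refine ⟨hr, fun p hp hpS => ?_, fun k => ?_⟩
  · obtain ⟨h3, h4⟩ := hord p hp hpS
    exact ⟨orderOf (α p), h3, by omega, pow_orderOf_eq_one _⟩
  · obtain ⟨N', D', h⟩ := Pool.Agent.N845.SP.core (P := True) (e := e) hα hfin.toFinset
      (by omega) hcl (fun _ he => h2 he) (fun j hj => (hLG j hj).toNice hnorm fun _ => hr) k
    have h3 := h.toLG hnorm trivial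
    exact ⟨N', D', h3.diffN, h3.diffD, h3.order, h3.ne, h3.euler, h3.fe⟩

end Pool.Agent.Results.MP_eea520_nt.AllSymmetricPowers
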