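import Pool.Agent.N903.LG.Final

/-!
# The value distribution of Langlands `L`-functions on the edge of absolute convergence

`G_j` is a group, for example the `L`-group of `GSp_{2n}`, `ρ_j : G_j → GL_{d_j}(ℂ)` a representation,
`S_j` a finite set of primes, and `A_{j,p} ∈ G_j` (for example in the Satake class of an automorphic
representation `π_j` at `p`) such that the eigenvalues of `ρ_j(A_{j,p})`, `p ∉ S_j`, are at most `p^{k_j}`
in absolute value; for tempered `π_j` one can take `k_j = 0`.  The Euler product `L_{S_j}(s, π_j, ρ_j)`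
converges for `Re s > 1 + k_j`.  Nothing is assumed about the existence of a continuation.

The definitions are in `Pool.Agent.N903.LG.Defs`.
-/

set_option autoImplicit false

namespace Pool.Agent.Results.MP_eea520_nt.EdgeLaw

open Filter Topology MeasureTheory Pool.Agent.N903.LG
open scoped ComplexConjugate ContDiff BoundedContinuousFunction

/-- **The joint law of Langlands `L`-functions on the edge.**  Let `L_j(s) = L_{S_j}(s, π_j, ρ_j)`,
`j = 1, …, n`, be Euler products as above, and `h_j` real numbers.

* For `Re s > 1 + k_j` one has `L_j(s) = exp (log L_j(s))`.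
* There is a set `N` of real numbers of Hausdorff dimension `0` such that for `τ ∉ N` the function
  `log L_j(s)` has a limit `λ_j(τ)` at `1 + k_j + i(τ + h_j)` in every angle in the half-plane
  `Re s > 1 + k_j`.
* There is a probability measure `ν` on `ℂⁿ` such that the means of `F(λ(τ))` over the interval
  `[a, a + T]` tend to `∫ F dν` as `T → ∞`, uniformly in `a`, for all bounded continuous `F`.
* The characteristic function of `ν` is the product over all primes of the characteristic functions
  of the random local factors: `ν` is the law of the random Euler product.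
* All exponential moments of `ν` are finite.
* If the Euler products are independent, `ν` has a density of class `C^∞`.

The Euler products `L_j(s) = L(s)`, `j = 1, …, n`, of one Euler product `L` with distinct shifts `h_j`
are independent. -/
theorem result :
    (∀ {n : ℕ} {G : Fin n → Type} [∀ j, Group (G j)] {d : Fin n → ℕ}
      (ρ : ∀ j, G j →* Matrix.GeneralLinearGroup (Fin (d j)) ℂ) (S : Fin n → Finset Nat.Primes)
      (A : ∀ j, Nat.Primes → G j) (k h : Fin n → ℝ)
      (_ : ∀ j, EigenvaluesAtMost (ρ j) (S j) (A j) (k j)),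
      (∀ j, ∀ s : ℂ, 1 + k j < s.re →
        HasProd (factor (ρ j) (S j) (A j) s) (Complex.exp (logL (ρ j) (S j) (A j) s))) ∧
      ∃ N : Set ℝ, dimH N = 0 ∧ ∃ lam : ℝ → EuclideanSpace ℂ (Fin n),
        (∀ τ, τ ∉ N → ∀ j, ∀ C : ℝ, Tendsto (logL (ρ j) (S j) (A j))
          (𝓝[angle (1 + k j) (τ + h j) C] (edgePoint (1 + k j) (τ + h j))) (𝓝 (lam τ j))) ∧
        AEMeasurable lam ∧
        ∃ ν : Measure (EuclideanSpace ℂ (Fin n)), IsProbabilityMeasure ν ∧
          (∀ F : EuclideanSpace ℂ (Fin n) →ᵇ ℝ, ∀ ε : ℝ, 0 < ε → ∃ T₀ : ℝ, ∀ T ≥ T₀, ∀ a : ℝ,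
            |T⁻¹ * (∫ τ in a..(a + T), F (lam τ)) - ∫ w, F w ∂ν| ≤ ε) ∧
          (∀ t : EuclideanSpace ℂ (Fin n), HasProd (randomFactor ρ S A k h t)
            (∫ w, Complex.exp (Complex.I * ((∑ j, conj (t j) * w j).re : ℝ)) ∂ν)) ∧
          (∀ C : ℝ, Integrable (fun w => Real.exp (C * ‖w‖)) ν) ∧
          (Independent ρ S A k h → ∃ g : EuclideanSpace ℂ (Fin n) → ℝ, ContDiff ℝ ∞ g ∧
            (∀ w, 0 ≤ g w) ∧ ν = volume.withDensity fun w => ENNReal.ofReal (g w))) ∧
    (∀ {n d : ℕ} {G : Type} [Group G] (ρ : G →* Matrix.GeneralLinearGroup (Fin d) ℂ)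
      (S : Finset Nat.Primes) (A : Nat.Primes → G) (k : ℝ), d ≠ 0 →
      ∀ h : Fin n → ℝ, Function.Injective h →
        Independent (G := fun _ : Fin n => G) (d := fun _ => d) (fun _ => ρ) (fun _ => S)
          (fun _ => A) (fun _ => k) h) :=
  ⟨fun ρ S A k h hk => joint_law ρ S A k h hk,
    fun ρ S A k hd h hinj => independent_same ρ S A k hd h hinj⟩

end Pool.Agent.Results.MP_eea520_nt.EdgeLaw
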