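import Mathlib
import Pool.Agent.N534.HC.Inst

/-!
# All representations of odd degree of `GSp(2n, ℂ)`, random curves: the L-functions near the edge

In the problem take `n = 1` or `n = 2`, so that the L-group of `GSp(2n)` is `GSpin(2n+1, ℂ) = GSp(2n, ℂ)` and the spin representation `r`
is the standard one, of degree `2n`. A curve `C` of genus `n` should give an automorphic representation `π` of `GSp(2n)`, whose
Satake class at a prime `v` of good reduction is the class of the Frobenius `A_v` on `H¹(C)`. (For `n = 1` and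
`K = ℚ` this is the modularity theorem, for `n = 2` it is open.) Everything below holds for any base field `K` and hyperelliptic curves of any
genus `g`, with `GSp(2g, ℂ)` (the dual group of `GSpin(2g+1)`).

A finite-dimensional representation `ρ` of `GSp(2g, ℂ)` of degree `w` (the scalars `z` act by `z^w`) has a character
`tr ρ(A) = Φ(sim(A), tr A, tr A², …)`, where `Φ` is a polynomial, homogeneous of weight `w` if `sim(A)`, the similitude factor, has weight `2` and
`tr A^l` has weight `l`; this holds after a twist by a power of the similitude factor, which is a shift of `s`. Examples: `Φ = tr A`, `w = 1` for `r`; the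
exterior and symmetric powers; all Schur functors; for `g = 1` and `K = ℚ` all symmetric powers.
The L-function is the Euler product of the `det (1 - ρ(A_v) N v^{-s})^{-1} = exp (∑_m Φ(N v^m, tr A_v^m, tr A_v^{2m}, …) N v^{-ms} / m)`,
over the `v` above the good primes `p`. It converges absolutely for `Re s > 1 + w/2`.

The family: `F(c; x)` is a polynomial in `x` whose coefficients are polynomials over `𝓞 K` in finitely many integer parameters `c_j`; a scaling
`c_j → G^{wt_j} c_j` twists the curve `C_c : y² = F(c; x)`: `F(G c; G^a x) = G^e F(c; x)` with `e` odd; and some member is nonsingular and of full degree.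
Examples: all polynomials of degree `d` (`wt = 1`, `a = 0`, `e = 1`), all linear systems of polynomials, all curves `y² = x³ + A x + B`
(weights `2`, `3`, `a = 1`, `e = 3`), all `y² = x^d + c_{2} x^{d-2} + ⋯ + c_d`, `d` odd, with parameters in `ℤ` or in `𝓞 K` (written in an integral basis).

The theorem: for ALL `ρ` of odd degree `w` (more generally for all `Φ`), the mean over the members `c` with `|c_j| ≤ H` of the square of the supremum of
`|log L(s, C_c, ρ)|` over the rectangle `1 + w/2 + 1/log H ≤ Re s ≤ 2 + w/2`, `|Im s| ≤ T` is at most `C (1 + T)`, with `C` independent of `H` and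
`T`. So outside a proportion `δ` of the members neither a zero, nor a pole, nor a branch point is visible at the distance `1/log H` from the edge
of absolute convergence (a zero or a pole makes `|log L|` as large as `log (1/ε)` at the distance `ε`). If Q1 is true, branch points do not
exist; if moreover the functorial lift to `GL(N)` has no Hecke characters as summands, as expected for generic `C`, neither poles nor zeros.

Proof. The trace for `m = 1` is an odd function under the twist by a quadratic non-residue, so its mean over the residue classes modulo `p` is zero; Weil's bound for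
all extensions of the residue fields, the zeros of the discriminant modulo `p` (Schwartz-Zippel), and the second moment over boxes give the bound for Dirichlet
polynomials on and to the left of the edge, and Cauchy's formula on circles the supremum.
-/

set_option autoImplicit false

open NumberField IsDedekindDomain Polynomial

namespace Pool.Agent.Results.MP_eea520_nt.OddRepresentationsEdge

section
variable {K : Type} [Field K] [NumberField K]

/-- Number of affine points of `y² = g(x)` with coordinates in the extension of degree `m` of the finite field `k`, i.e. the field of the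
elements of the algebraic closure of `k` which are fixed by the `m`-th power of the Frobenius of `k`. -/
noncomputable def affineCount (k : Type) [Field k] (g : k[X]) (m : ℕ) : ℕ :=
  Nat.card {P : AlgebraicClosure k × AlgebraicClosure k //
    P.1 ^ (Nat.card k ^ m) = P.1 ∧ P.2 ^ (Nat.card k ^ m) = P.2 ∧ P.2 ^ 2 = aeval P.1 g}

/-- Number of points at infinity of the smooth projective curve `y² = g(x)` over the extension of degree `m` of `k`: one if the degree of `g`
is odd, and otherwise the number of square roots of the leading coefficient. -/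
noncomputable def infinityCount (k : Type) [Field k] (g : k[X]) (m : ℕ) : ℕ :=
  if Odd g.natDegree then 1 else
    Nat.card {y : AlgebraicClosure k // y ^ (Nat.card k ^ m) = y ∧
      y ^ 2 = algebraMap k (AlgebraicClosure k) g.leadingCoeff}

/-- Trace of the `m`-th power of the Frobenius at `v` on `H¹` of the curve `y² = f(x)`: `q^m + 1` minus the number of its points over the
field with `q^m` elements, `q = N v`. -/
noncomputable def trace (f : (𝓞 K)[X]) (v : HeightOneSpectrum (𝓞 K)) (m : ℕ) : ℤ :=
  haveI : v.asIdeal.IsMaximal := v.isMaximal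
  letI : Field (𝓞 K ⧸ v.asIdeal) := Ideal.Quotient.field v.asIdeal
  ((Ideal.absNorm v.asIdeal : ℕ) : ℤ) ^ m + 1 -
    (affineCount (𝓞 K ⧸ v.asIdeal) (f.map (Ideal.Quotient.mk v.asIdeal)) m +
      infinityCount (𝓞 K ⧸ v.asIdeal) (f.map (Ideal.Quotient.mk v.asIdeal)) m)

/-- Good reduction: `v` does not divide `2` and the reduction of `f` is separable, of degree `d`. -/
def Good (f : (𝓞 K)[X]) (d : ℕ) (v : HeightOneSpectrum (𝓞 K)) : Prop :=
  (2 : 𝓞 K) ∉ v.asIdeal ∧ (f.map (Ideal.Quotient.mk v.asIdeal)).natDegree = d ∧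
    (f.map (Ideal.Quotient.mk v.asIdeal)).Separable

/-- The weights of the variables: `none` is the similitude factor, `some l` is the trace of the power with the exponent `l + 1`. -/
def weight : Option ℕ → ℕ
  | none => 2
  | some l => l + 1

/-- `tr ρ(A_v^k) = Φ(N v^k, tr A_v^k, tr A_v^{2k}, …)`. -/
noncomputable def localTrace (Φ : MvPolynomial (Option ℕ) ℝ) (f : (𝓞 K)[X]) (v : HeightOneSpectrum (𝓞 K)) (k : ℕ) : ℝ :=
  MvPolynomial.eval (fun x : Option ℕ => match x with
    | none => ((Ideal.absNorm v.asIdeal : ℕ) : ℝ) ^ k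
    | some l => ((trace f v (k * (l + 1)) : ℤ) : ℝ)) Φ

open Classical in
/-- The sum over the places `v` above `p`, of residue degree `f_v` dividing `k`, of `f_v` times the local trace of the power `k / f_v`. -/
noncomputable def frobTrace (t : HeightOneSpectrum (𝓞 K) → ℕ → ℝ) (p k : ℕ) : ℝ :=
  ∑ᶠ v : {v : HeightOneSpectrum (𝓞 K) // (p : 𝓞 K) ∈ v.asIdeal},
    if Nat.log p (Ideal.absNorm v.1.asIdeal) ∣ k then
      (Nat.log p (Ideal.absNorm v.1.asIdeal) : ℝ) * t v.1 (k / Nat.log p (Ideal.absNorm v.1.asIdeal))
    else 0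

open Classical in
/-- The logarithm `∑ (frobTrace t p k) p^{-ks} / k` of the product of the Euler factors at the places above `p`, for local traces `t`; it is
omitted if one of these places is not good. -/
noncomputable def logFactor (t : HeightOneSpectrum (𝓞 K) → ℕ → ℝ) (G : HeightOneSpectrum (𝓞 K) → Prop)
    (s : ℂ) (p : ℕ) : ℂ :=
  if ∃ v : HeightOneSpectrum (𝓞 K), (p : 𝓞 K) ∈ v.asIdeal ∧ ¬ G v then 0 else
    ∑' k : ℕ, (frobTrace t p (k + 1) : ℂ) / ((k : ℂ) + 1) * (p : ℂ) ^ (-(((k : ℂ) + 1) * s))

/-- The logarithm of the L-function. -/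
noncomputable def logL (t : HeightOneSpectrum (𝓞 K) → ℕ → ℝ) (G : HeightOneSpectrum (𝓞 K) → Prop) (s : ℂ) : ℂ :=
  ∑' p : Nat.Primes, logFactor t G s (p : ℕ)

/-- The L-function: the product of the Euler factors. -/
noncomputable def LSeries (t : HeightOneSpectrum (𝓞 K) → ℕ → ℝ) (G : HeightOneSpectrum (𝓞 K) → Prop) (s : ℂ) : ℂ :=
  ∏' p : Nat.Primes, Complex.exp (logFactor t G s (p : ℕ))

variable {J : Type} [Fintype J] [DecidableEq J]

/-- The member `F(c; x)` of the family. -/
noncomputable def member (F : (MvPolynomial J (𝓞 K))[X]) (c : J → ℤ) : (𝓞 K)[X] :=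
  F.map (MvPolynomial.eval (fun j => ((c j : ℤ) : 𝓞 K)))

/-- `log L(s, C_c, ρ)`. -/
noncomputable def logLc (Φ : MvPolynomial (Option ℕ) ℝ) (F : (MvPolynomial J (𝓞 K))[X]) (c : J → ℤ) (s : ℂ) : ℂ :=
  logL (localTrace Φ (member F c)) (Good (member F c) F.natDegree) s

/-- `L(s, C_c, ρ)`. -/
noncomputable def LSeriesc (Φ : MvPolynomial (Option ℕ) ℝ) (F : (MvPolynomial J (𝓞 K))[X]) (c : J → ℤ) (s : ℂ) : ℂ :=
  LSeries (localTrace Φ (member F c)) (Good (member F c) F.natDegree) s

/-- The integer vectors with coordinates of absolute value at most `H`. -/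
noncomputable def box (ι : Type) [Fintype ι] [DecidableEq ι] (H : ℕ) : Finset (ι → ℤ) :=
  Fintype.piFinset fun _ => Finset.Icc (-(H : ℤ)) H

/-- The rectangle `1 + w/2 + 1/log H ≤ Re s ≤ 2 + w/2`, `|Im s| ≤ T`. -/
def rectangle (w H : ℕ) (T : ℝ) : Set ℂ :=
  {s | 1 + (w : ℝ) / 2 + 1 / Real.log H ≤ s.re ∧ s.re ≤ 2 + (w : ℝ) / 2 ∧ |s.im| ≤ T}

/-- **All representations of odd degree, random curves: the L-functions near the line `Re s = 1 + w/2`.** -/
theorem result (F : (MvPolynomial J (𝓞 K))[X]) (hF : 1 ≤ F.natDegree)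
    (hc : ∃ c : J → ℤ, (member F c).natDegree = F.natDegree ∧ ((member F c).map (algebraMap (𝓞 K) K)).Separable)
    (wt : J → ℕ) (a e : ℕ) (he : Odd e)
    (hs : ∀ (G : ℤ) (c : J → ℤ), (member F (fun j => G ^ wt j * c j)).comp (C ((G : 𝓞 K) ^ a) * X) =
      C ((G : 𝓞 K) ^ e) * member F c)
    (Φ : MvPolynomial (Option ℕ) ℝ) (w : ℕ) (hΦ : MvPolynomial.IsWeightedHomogeneous weight Φ w) (hw : Odd w) :
    (∀ (c : J → ℤ) (s : ℂ), 1 + (w : ℝ) / 2 < s.re → LSeriesc Φ F c s = Complex.exp (logLc Φ F c s)) ∧
    ∃ C : ℝ, 0 < C ∧ ∀ H : ℕ, 2 ≤ H → ∀ T : ℝ, 0 ≤ T →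
      (∀ X ⊆ box J H, ∀ s : (J → ℤ) → ℂ, (∀ c ∈ X, s c ∈ rectangle w H T) →
        ∑ c ∈ X, ‖logLc Φ F c (s c)‖ ^ 2 ≤ C * (1 + T) * (box J H).card) ∧
      (∀ δ : ℝ, 0 < δ → ∃ X ⊆ box J H, (X.card : ℝ) ≤ δ * (box J H).card ∧
        ∀ c ∈ box J H \ X, ∀ s ∈ rectangle w H T, ‖logLc Φ F c s‖ ≤ Real.sqrt (C * (1 + T) / δ)) := by
  have hΦ' : MvPolynomial.IsWeightedHomogeneous Pool.Agent.N534.HC.Inst.wgt1 Φ w := by
    have : weight = Pool.Agent.N534.HC.Inst.wgt1 := by
      funext x
      cases x <;> rfl
    rw [← this]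
    exact hΦ
  set Ψ := MvPolynomial.rename Pool.Agent.N534.HC.Inst.emb Φ with hΨ
  have hwt := Pool.Agent.N534.HC.Inst.hasWt_emb hΦ'
  have hAdm : ∀ i : Unit, Pool.Agent.N534.HC.Adm ((fun _ : Unit => F) i) := fun _ => ⟨hF, hc⟩
  have hodd := Pool.Agent.N534.HC.Inst.oddMon_all (F := fun _ : Unit => F) (wt := wt) (a := fun _ => a) (e := fun _ => e)
    (fun _ => hs) (fun _ => he) hwt hw
  obtain ⟨D, hD⟩ := Pool.Agent.N534.HC.powH hwt hAdm hodd
  have hcmp := Pool.Agent.N534.HC.Inst.cmpH w Ψ (fun _ : Unit => F)
  have ht : ∀ c : J → ℤ, localTrace Φ (member F c) = Pool.Agent.N534.HC.Inst.tH Ψ (fun _ : Unit => F) c := by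
    intro c
    funext v k
    unfold localTrace Pool.Agent.N534.HC.Inst.tH Pool.Agent.N534.HC.chv
    rw [hΨ, MvPolynomial.eval_rename]
    congr 2
    funext x
    match x with
    | none => rfl
    | some l =>
      have h1 := Pool.Agent.N534.HC.Inst.trace_eq (member F c) v (k * (l + 1))
      exact congrArg (Int.cast : ℤ → ℝ) h1
  have hg : ∀ c : J → ℤ, Good (member F c) F.natDegree = Pool.Agent.N534.HC.Inst.gH (fun _ : Unit => F) c := by
    intro c
    funext v
    apply propext
    exact ⟨fun h _ => h, fun h => h ()⟩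
  have hL : ∀ (c : J → ℤ) (s : ℂ), logLc Φ F c s = Pool.Agent.N534.HC.St.logL
      (Pool.Agent.N534.HC.Inst.tH Ψ (fun _ : Unit => F) c) (Pool.Agent.N534.HC.Inst.gH (fun _ : Unit => F) c) s := by
    intro c s
    unfold logLc
    rw [ht, hg]
    rfl
  refine ⟨fun c s hs' => ?_, ?_⟩
  · have h1 := Pool.Agent.N534.HC.St.LSeries_eq hcmp hD c s hs'
    rw [hL c s, ← h1]
    unfold LSeriesc
    rw [ht, hg]
    rfl
  · have h1 := Pool.Agent.N534.HC.St.avgC hcmp hD
    simp only [← hL] at h1
    exact h1

end

end Pool.Agent.Results.MP_eea520_nt.OddRepresentationsEdge
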