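import Pool.Agent.N881.GW.R2
import Pool.Agent.N881.GW.R3

/-!
# The explicit formula of a Langlands `L`-function at one point, and its converse

`G` is a group, for example `^LG = GSpin_{2n+1}(ℂ)`, `ρ : G → GL_d(ℂ)` is a representation and `A_p`,
`p ∉ S`, are elements of `G` (for example in the Satake classes of an automorphic representation of
`GSp_{2n}`) such that the eigenvalues of `ρ(A_p)` are at most `p^κ` in absolute value.  Let `e = κ + 1`.
The Euler product `L_S(s) = ∏_{p ∉ S} det (1 - ρ(A_p) p^{-s})⁻¹` converges for `Re s > e`.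

For a function `m : ℂ → ℤ` the existence of a meromorphic continuation of `L_S` with the orders `m` is
equivalent to an explicit formula for one sequence of averages of the character values
`χ_ρ(A_p^n)`, at the single point `e`.  Nothing is assumed about the growth of the continuation, and
there is no functional equation.
-/

set_option autoImplicit false

namespace Pool.Agent.Results.MP_eea520_nt.OnePointExplicitFormula

open Classical in
/-- The Euler product `L_S(s) = ∏_{p ∉ S} det (1 - ρ(A_p) p^{-s})⁻¹`. -/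
noncomputable def eulerProduct {G : Type*} [Group G] {d : ℕ}
    (ρ : G →* Matrix.GeneralLinearGroup (Fin d) ℂ) (S : Finset Nat.Primes) (A : Nat.Primes → G)
    (s : ℂ) : ℂ :=
  ∏' p : Nat.Primes, if p ∈ S then 1 else
    ((1 - ((p : ℕ) : ℂ) ^ (-s) • (ρ (A p) : Matrix (Fin d) (Fin d) ℂ)).det)⁻¹

/-- The character `χ_ρ(g)` of `ρ`. -/
noncomputable def character {G : Type*} [Group G] {d : ℕ}
    (ρ : G →* Matrix.GeneralLinearGroup (Fin d) ℂ) (g : G) : ℂ :=
  (ρ g : Matrix (Fin d) (Fin d) ℂ).trace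

open Classical in
/-- The Gaussian average at `x` of the coefficients of `-L_S'/L_S(e)`:
`√(a/(π log x)) ∑_{p ∉ S, n ≥ 1} χ_ρ(A_p^n) log p p^{-ne} exp(-a (log p^n - log x)² / log x)`. -/
noncomputable def average {G : Type*} [Group G] {d : ℕ}
    (ρ : G →* Matrix.GeneralLinearGroup (Fin d) ℂ) (S : Finset Nat.Primes) (A : Nat.Primes → G)
    (e a x : ℝ) : ℂ :=
  (√(a / (Real.pi * Real.log x)) : ℂ) *
    ∑' q : Nat.Primes × ℕ, if q.1 ∈ S then 0 else
      character ρ (A q.1 ^ (q.2 + 1)) * (Real.log ((q.1 : ℕ) : ℝ) : ℂ) *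
        ((((q.1 : ℕ) : ℝ) ^ (-((q.2 + 1) * e)) : ℝ) : ℂ) *
        (Real.exp (-(a * ((q.2 + 1) * Real.log ((q.1 : ℕ) : ℝ) - Real.log x) ^ 2
          / Real.log x)) : ℂ)

/-- The sum of `m(r) x^{w + w²/(4a)}`, `w = r - e`, over the `r` with `Re w > -2a` and
`Re (w + w²/(4a)) > -κ`.  For `κ = a` these are the `r` with `|Im w| < Re w + 2a`. -/
noncomputable def contribution (m : ℂ → ℤ) (e a κ x : ℝ) : ℂ :=
  ∑ᶠ r ∈ {r : ℂ | m r ≠ 0 ∧ -(2 * a) < (r - e).re ∧
      -κ < ((r - e) + (r - e) ^ 2 / (4 * a)).re},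
    (m r : ℂ) * (x : ℂ) ^ ((r - e) + (r - e) ^ 2 / (4 * a))

/-- The explicit formula with the orders `m` and the error `O(x^{-κ})`: there is a `C` such that
`|average + contribution| ≤ C x^{-κ}` for `x ≥ X`. -/
def ExplicitFormula {G : Type*} [Group G] {d : ℕ}
    (ρ : G →* Matrix.GeneralLinearGroup (Fin d) ℂ) (S : Finset Nat.Primes) (A : Nat.Primes → G)
    (m : ℂ → ℤ) (e a κ X : ℝ) : Prop :=
  ∃ C : ℝ, ∀ x : ℝ, X ≤ x → ‖average ρ S A e a x + contribution m e a κ x‖ ≤ C * x ^ (-κ)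

/-- `m` vanishes for `Re r > e` and, for every `b < δ`, has finitely many nonzero values in
every bounded part of the half-plane `Re r > e - b`. -/
def IsDivisor (m : ℂ → ℤ) (e δ : ℝ) : Prop :=
  (∀ r : ℂ, e < r.re → m r = 0) ∧
    ∀ b R : ℝ, b < δ → {r : ℂ | m r ≠ 0 ∧ e - b < r.re ∧ |r.im| ≤ R}.Finite

/-- **The explicit formula at one point and its converse.**  Let `ρ : G → GL_d(ℂ)` be a representation
of a group, `S` a finite set of primes and `A_p ∈ G` such that the eigenvalues of `ρ(A_p)`, `p ∉ S`, are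
at most `p^κ` in absolute value, and let `e = κ + 1`.

1. The Euler product `L_S(s)` converges for `Re s > e`.
2. Let `δ > 0` and let `m` be a locally finite family of integers in `Re s > e - δ`, `0` for
   `Re s > e`.  The following are equivalent: `L_S` has a meromorphic continuation to `Re s > e - δ`
   with the order `m(s)` at every `s`; for all `0 < k < δ` and all `a ≥ k/2` the explicit formula holds
   with the error `O(x^{-(k - k²/(4a))})`; for all `0 < k < δ` and all large `a` it holds with the error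
   `O(x^{-k})`; for all `0 < k < δ` there are arbitrarily large `a` for which it holds with the error
   `O(x^{-k})`.
3. Let `m` be a locally finite family of integers in `ℂ`, `0` for `Re s > e`.  The following are
   equivalent: `L_S` has a meromorphic continuation to `ℂ` with the order `m(s)` at every `s`; for all
   `a > 0` the explicit formula holds with the error `O(x^{-a})`; for all `k` there are arbitrarily
   large `a` for which it holds with the error `O(x^{-k})`.
4. `L_S` has a meromorphic continuation to `ℂ` if and only if there is a locally finite family `m`,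
   `0` for `Re s > e`, such that for all `a > 0` the explicit formula holds with the error
   `O(x^{-a})`. -/
theorem result {G : Type*} [Group G] (d : ℕ) (ρ : G →* Matrix.GeneralLinearGroup (Fin d) ℂ)
    (S : Finset Nat.Primes) (A : Nat.Primes → G) (κ : ℝ)
    (_ : ∀ p : Nat.Primes, p ∉ S → ∀ l : ℂ,
      (ρ (A p) : Matrix (Fin d) (Fin d) ℂ).charpoly.IsRoot l → ‖l‖ ≤ ((p : ℕ) : ℝ) ^ κ) :
    (∀ s : ℂ, κ + 1 < s.re → Multipliable fun p : Nat.Primes =>
      open Classical in if p ∈ S then (1 : ℂ) else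
        ((1 - ((p : ℕ) : ℂ) ^ (-s) • (ρ (A p) : Matrix (Fin d) (Fin d) ℂ)).det)⁻¹) ∧
    (∀ δ : ℝ, 0 < δ → ∀ m : ℂ → ℤ, IsDivisor m (κ + 1) δ → List.TFAE [
      ∃ F : ℂ → ℂ, (∀ s : ℂ, κ + 1 < s.re → F s = eulerProduct ρ S A s) ∧
        ∀ s : ℂ, κ + 1 - δ < s.re →
          MeromorphicAt F s ∧ meromorphicOrderAt F s = (m s : WithTop ℤ),
      ∀ k : ℝ, 0 < k → k < δ → ∀ a : ℝ, k ≤ 2 * a →
        ExplicitFormula ρ S A m (κ + 1) a (k - k ^ 2 / (4 * a)) 2,
      ∀ k : ℝ, 0 < k → k < δ → ∃ a₀ : ℝ, ∀ a : ℝ, a₀ ≤ a →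
        ExplicitFormula ρ S A m (κ + 1) a k 2,
      ∀ k : ℝ, 0 < k → k < δ → ∀ a₀ : ℝ, ∃ a : ℝ, a₀ ≤ a ∧ ∃ X : ℝ,
        ExplicitFormula ρ S A m (κ + 1) a k X]) ∧
    (∀ m : ℂ → ℤ, (∀ δ : ℝ, IsDivisor m (κ + 1) δ) → List.TFAE [
      ∃ F : ℂ → ℂ, (∀ s : ℂ, κ + 1 < s.re → F s = eulerProduct ρ S A s) ∧
        ∀ s : ℂ, MeromorphicAt F s ∧ meromorphicOrderAt F s = (m s : WithTop ℤ),
      ∀ a : ℝ, 0 < a → ExplicitFormula ρ S A m (κ + 1) a a 2,
      ∀ k a₀ : ℝ, ∃ a : ℝ, a₀ ≤ a ∧ ∃ X : ℝ, ExplicitFormula ρ S A m (κ + 1) a k X]) ∧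
    ((∃ F : ℂ → ℂ, (∀ s : ℂ, κ + 1 < s.re → F s = eulerProduct ρ S A s) ∧
        ∀ s : ℂ, MeromorphicAt F s) ↔
      ∃ m : ℂ → ℤ, (∀ δ : ℝ, IsDivisor m (κ + 1) δ) ∧
        ∀ a : ℝ, 0 < a → ExplicitFormula ρ S A m (κ + 1) a a 2) := by
  rename_i hκ
  obtain ⟨c, hLD, hMM, hmul⟩ := Pool.Agent.N881.GW.mprod_data
    (fun p => (ρ (A p) : Matrix (Fin d) (Fin d) ℂ)) S hκ
  have hL : ∀ s, Pool.Agent.N881.GW.mprod
      (fun p => (ρ (A p) : Matrix (Fin d) (Fin d) ℂ)) S s = eulerProduct ρ S A s := fun s => rfl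
  have havg : ∀ a x : ℝ, Pool.Agent.N881.GW.mavg
      (fun p => (ρ (A p) : Matrix (Fin d) (Fin d) ℂ)) S (κ + 1) a x =
      average ρ S A (κ + 1) a x := by
    intro a x
    unfold Pool.Agent.N881.GW.mavg average
    congr 1
    refine tsum_congr fun q => ?_
    split_ifs
    · rfl
    · unfold character
      rw [map_pow, Units.val_pow_eq_pow_val]
  simp only [havg] at hMM
  have hE : ∀ m a k X, ExplicitFormula ρ S A m (κ + 1) a k X ↔
      Pool.Agent.N881.GW.Fm (average ρ S A (κ + 1)) m (κ + 1) a k X := fun m a k X => Iff.rfl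
  refine ⟨hmul, fun δ hδ m hm => ?_, fun m hm => ?_, ?_⟩
  · have key := hLD.half (e := κ + 1) (L := eulerProduct ρ S A) hMM hm.1 (S := {δ})
      (fun b hb => by
        rw [Set.mem_singleton_iff] at hb
        rw [hb]
        exact hδ)
      (fun A' _ hb R => by
        obtain ⟨b, hb, hlt⟩ := hb
        rw [Set.mem_singleton_iff] at hb
        rw [hb] at hlt
        exact (hm.2 A' R hlt).subset fun r hr => ⟨hr.1, hr.2.1, hr.2.2.le⟩)
    have hsing : ∀ {t : ℝ}, (∃ b ∈ ({δ} : Set ℝ), t < b) ↔ t < δ := fun {t} => by simp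
    have hsing2 : ∀ {t : ℝ}, (∃ b ∈ ({δ} : Set ℝ), -b < t - (κ + 1)) ↔ κ + 1 - δ < t :=
      fun {t} => by
        simp only [Set.mem_singleton_iff, exists_eq_left]
        constructor <;> intro h <;> linarith
    simp only [hsing, hsing2] at key
    exact key
  · exact hLD.whole (e := κ + 1) (L := eulerProduct ρ S A) hMM (hm 1).1
      (fun A' R => ((hm (A' + 1)).2 A' R (by linarith)).subset
        fun r hr => ⟨hr.1, hr.2.1, hr.2.2.le⟩)
  · constructor
    · rintro ⟨F, h1, h2⟩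
      obtain ⟨m, k1, k2, k3⟩ := hLD.exists_orders (e := κ + 1) (L := eulerProduct ρ S A) h1 h2
      have hm : ∀ δ : ℝ, IsDivisor m (κ + 1) δ := fun δ => ⟨k1, fun b R _ =>
        (k2 b (R + 1)).subset fun r hr => ⟨hr.1, hr.2.1, lt_of_le_of_lt hr.2.2 (by linarith)⟩⟩
      have key := (hLD.whole (e := κ + 1) (L := eulerProduct ρ S A) hMM k1 k2).out 0 1
      exact ⟨m, hm, key.1 ⟨F, h1, fun s => ⟨h2 s, k3 s⟩⟩⟩
    · rintro ⟨m, hm, h⟩
      have key := (hLD.whole (e := κ + 1) (L := eulerProduct ρ S A) hMM (hm 1).1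
        (fun A' R => ((hm (A' + 1)).2 A' R (by linarith)).subset
          fun r hr => ⟨hr.1, hr.2.1, hr.2.2.le⟩)).out 0 1
      obtain ⟨F, h1, h2⟩ := key.2 h
      exact ⟨F, h1, fun s => (h2 s).1⟩

end Pool.Agent.Results.MP_eea520_nt.OnePointExplicitFormula
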